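import Pool.Agent.THG.R.SigT
import Pool.Agent.THF.T2.Rec2

/-!
# THG/R-Rec: the reciprocity law for a local square at `S` and an arbitrary element

PLAN.  The proof of `rec2` (THF/T2/Rec2.lean) with other signatures: `ph ω = zt ^ sigPos * conj zt ^ sigNeg` (QD/N2/Rec), `zt = exp (π i / 4)`, `zt * conj zt = 1`; by `sigPos_trf`, `sigNeg_trf`: `ph x * zt ^ (2 negs x)`-like formula: `ph x = zt ^ (r1 + r2 - negs x) * conj zt ^ (negs x + r2)`,
so with `n = negs x`, `m = negs y`, `c = #{φ | φ x < 0, φ y < 0}`, `negs (x y) = n + m - 2 c`: `ph (x y) * ph 1 = (-1)^c * (ph x * ph y)` (`zt ^ 4 = -1`).  In `rec2` the relation `hglob` becomes: `mu (x y M2) mu (M2)` has the phase of `(-1)^c mu (x M2) mu (y M2)` (products over `t`), and the conclusion is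
`BS S x y = (-1)^c` (both are `± 1`: `SP.int_eq` with the integer `(-1)^c * ∏`).
-/

namespace Pool.Agent.THG

open NumberField IsDedekindDomain Pool.Agent.HWR Pool.Agent.QD Pool.Agent.THF

open Pool.Agent.QD.N2

private theorem rr_fin {K : Type} [Field K] [NumberField K] : Finite (K →+* ℝ) := by
  refine Finite.of_injective (fun φ : K →+* ℝ => (Complex.ofRealHom.comp φ : K →+* ℂ)) ?_
  intro φ ψ h
  ext a
  exact Complex.ofReal_injective (RingHom.congr_fun h a)

private theorem rr_negs {K : Type} [Field K] [NumberField K] (x y : Kˣ) :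
    negs (x * y) + 2 * Nat.card {φ : K →+* ℝ // φ (x : K) < 0 ∧ φ (y : K) < 0} =
      negs x + negs y := by
  classical
  have hf : Finite (K →+* ℝ) := rr_fin
  let _ : Fintype (K →+* ℝ) := Fintype.ofFinite (K →+* ℝ)
  unfold negs
  simp only [Nat.card_eq_fintype_card, Fintype.card_subtype, Finset.card_filter]
  rw [Finset.mul_sum, ← Finset.sum_add_distrib, ← Finset.sum_add_distrib]
  refine Finset.sum_congr rfl fun φ _ => ?_
  have hxx : φ (x : K) ≠ 0 := (map_ne_zero φ).2 x.ne_zero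
  have hyy : φ (y : K) ≠ 0 := (map_ne_zero φ).2 y.ne_zero
  have hm : φ ((x * y : Kˣ) : K) = φ (x : K) * φ (y : K) := by
    rw [Units.val_mul, map_mul]
  rw [hm]
  rcases lt_or_gt_of_ne hxx with h1 | h1 <;> rcases lt_or_gt_of_ne hyy with h2 | h2
  · have h3 : ¬ φ (x : K) * φ (y : K) < 0 := not_lt.2 (mul_pos_of_neg_of_neg h1 h2).le
    rw [if_neg h3, if_pos ⟨h1, h2⟩, if_pos h1, if_pos h2]
    norm_num
  · have h3 : φ (x : K) * φ (y : K) < 0 := mul_neg_of_neg_of_pos h1 h2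
    rw [if_pos h3, if_neg (fun h => lt_asymm h2 h.2), if_pos h1, if_neg (lt_asymm h2),
      mul_zero]
  · have h3 : φ (x : K) * φ (y : K) < 0 := mul_neg_of_pos_of_neg h1 h2
    rw [if_pos h3, if_neg (fun h => lt_asymm h1 h.1), if_neg (lt_asymm h1), if_pos h2,
      mul_zero, add_comm]
  · have h3 : ¬ φ (x : K) * φ (y : K) < 0 := not_lt.2 (mul_pos h1 h2).le
    rw [if_neg h3, if_neg (fun h => lt_asymm h1 h.1), if_neg (lt_asymm h1), if_neg (lt_asymm h2),
      mul_zero]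

private theorem rr_negs_one {K : Type} [Field K] [NumberField K] : negs (1 : Kˣ) = 0 := by
  have h := rr_negs (1 : Kˣ) (1 : Kˣ)
  have h2 : Nat.card {φ : K →+* ℝ // φ ((1 : Kˣ) : K) < 0 ∧ φ ((1 : Kˣ) : K) < 0} = 0 := by
    have : IsEmpty {φ : K →+* ℝ // φ ((1 : Kˣ) : K) < 0 ∧ φ ((1 : Kˣ) : K) < 0} := by
      refine ⟨fun φ => ?_⟩
      obtain ⟨φ, h3, _⟩ := φ
      rw [Units.val_one, map_one] at h3
      exact absurd h3 (by norm_num)
    exact Nat.card_of_isEmpty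
  rw [mul_one, h2] at h
  omega

private theorem rr_conj : (starRingEnd ℂ) zt = zt⁻¹ := by
  have h : (starRingEnd ℂ) zt * zt = 1 := by
    unfold zt
    rw [← Complex.exp_conj, ← Complex.exp_add]
    have h2 : (starRingEnd ℂ) ((Real.pi : ℂ) * Complex.I / 4) + (Real.pi : ℂ) * Complex.I / 4 = 0 := by
      rw [map_div₀, map_mul, Complex.conj_ofReal, Complex.conj_I, map_ofNat]
      ring
    rw [h2, Complex.exp_zero]
  exact eq_inv_of_mul_eq_one_left h

private theorem rr_zt4 : zt ^ 4 = -1 := by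
  unfold zt
  rw [← Complex.exp_nat_mul]
  have h2 : ((4 : ℕ) : ℂ) * ((Real.pi : ℂ) * Complex.I / 4) = (Real.pi : ℂ) * Complex.I := by
    push_cast
    ring
  rw [h2, Complex.exp_pi_mul_I]

private theorem rr_phz {K : Type} [Field K] [NumberField K] (x : Kˣ) :
    ph (x : K) = zt ^ ((InfinitePlace.nrRealPlaces K : ℤ) - 2 * (negs x : ℤ)) := by
  have h1 := sigPos_trf x
  have h2 := sigNeg_trf x
  unfold ph
  rw [rr_conj, inv_pow, ← zpow_natCast, ← zpow_natCast, ← zpow_neg, ← zpow_add₀ zt_ne_zero]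
  congr 1
  omega

private theorem rr_ph {K : Type} [Field K] [NumberField K] (x y : Kˣ) :
    ph ((x * y : Kˣ) : K) * ph ((1 : Kˣ) : K) =
      (((-1) ^ Nat.card {φ : K →+* ℝ // φ (x : K) < 0 ∧ φ (y : K) < 0} : ℤ) : ℂ) *
        (ph ((x : Kˣ) : K) * ph ((y : Kˣ) : K)) := by
  have h := rr_negs x y
  rw [rr_phz (x * y), rr_phz (1 : Kˣ), rr_phz x, rr_phz y, rr_negs_one]
  set c := Nat.card {φ : K →+* ℝ // φ (x : K) < 0 ∧ φ (y : K) < 0}
  have h4 : (((-1) ^ c : ℤ) : ℂ) = zt ^ ((4 : ℤ) * (c : ℤ)) := by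
    rw [zpow_mul, zpow_natCast]
    have : zt ^ (4 : ℤ) = -1 := by
      have h5 := rr_zt4
      rw [← zpow_natCast] at h5
      exact h5
    rw [this]
    push_cast
    rfl
  rw [h4, ← zpow_add₀ zt_ne_zero, ← zpow_add₀ zt_ne_zero, ← zpow_add₀ zt_ne_zero]
  congr 1
  omega

theorem rec3 {K : Type} [Field K] [NumberField K] (S : Finset (HeightOneSpectrum (𝓞 K)))
    (h2 : ∀ v : HeightOneSpectrum (𝓞 K), (2 : 𝓞 K) ∈ v.asIdeal → v ∈ S) (x y : Kˣ)
    (hx : ∀ v ∈ S, LSq v x) :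
    BS S x y = (-1) ^ Nat.card {φ : K →+* ℝ // φ (x : K) < 0 ∧ φ (y : K) < 0} := by
  classical
  obtain ⟨m1, hm1, H1⟩ := prod_mu (1 : Kˣ)
  obtain ⟨mx, hmx, Hx⟩ := prod_mu x
  obtain ⟨my, hmy, Hy⟩ := prod_mu y
  obtain ⟨mxy, hmxy, Hxy⟩ := prod_mu (x * y)
  -- the finite set of interesting places
  set s0 : Finset (HeightOneSpectrum (𝓞 K)) :=
    S ∪ (finite_ord x).toFinset ∪ (finite_ord y).toFinset with hs0
  choose d hd using exists_cond (K := K)
  -- a bound for the depth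
  set bd : HeightOneSpectrum (𝓞 K) → ℕ := fun v =>
    d v + (2 * ordK v (two' K)).natAbs + (ordK v x).natAbs + (ordK v y).natAbs with hbd
  obtain ⟨B, hB0, hB⟩ := exists_deep s0 (∑ v ∈ s0, bd v)
  set Mn : ℕ := m1 * mx * my * mxy * B with hMn
  have hMn0 : Mn ≠ 0 := by positivity
  let M : Kˣ := Units.mk0 (Mn : K) (Nat.cast_ne_zero.2 hMn0)
  have hM : (M : K) = (Mn : K) := rfl
  have hMdeep : ∀ v ∈ s0, (bd v : ℤ) ≤ ordK v M := by
    intro v hv
    have h3 : (M : K) ∈ Rv v ((∑ v ∈ s0, bd v : ℕ) : ℤ) := by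
      rw [hM, hMn, Nat.cast_mul]
      have h4 := Rv_mul (v := v) (int_mem_Rv ((m1 * mx * my * mxy : ℕ) : 𝓞 K)) (hB v hv)
      rw [zero_add] at h4
      have e : (((m1 * mx * my * mxy : ℕ) : 𝓞 K) : K) = ((m1 * mx * my * mxy : ℕ) : K) := by
        push_cast
        rfl
      rwa [e] at h4
    have h5 := mem_Rv.1 h3
    have h6 : bd v ≤ ∑ v ∈ s0, bd v := Finset.single_le_sum (fun _ _ => Nat.zero_le _) hv
    have h7 : (bd v : ℤ) ≤ ((∑ v ∈ s0, bd v : ℕ) : ℤ) := by exact_mod_cast h6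
    exact h7.trans h5
  set M2 : Kˣ := (M ^ 2)⁻¹ with hM2
  have hordM2 : ∀ v, ordK v M2 = -(2 * ordK v M) := by
    intro v
    rw [hM2, QD.ordK_inv, QD.ordK_pow]
    norm_num
  -- the finite set of all relevant places
  obtain ⟨t, hst, ht1, htx, hty, htxy⟩ : ∃ t : Finset (HeightOneSpectrum (𝓞 K)), s0 ⊆ t ∧
      (∀ v, v ∉ t → ((1 * M2 : Kˣ) : K) ∈ Rv v 0) ∧ (∀ v, v ∉ t → ((x * M2 : Kˣ) : K) ∈ Rv v 0) ∧
      (∀ v, v ∉ t → ((y * M2 : Kˣ) : K) ∈ Rv v 0) ∧
      (∀ v, v ∉ t → ((x * y * M2 : Kˣ) : K) ∈ Rv v 0) := by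
    refine ⟨s0 ∪ (finite_not_mem ((1 * M2 : Kˣ) : K)).toFinset ∪
      (finite_not_mem ((x * M2 : Kˣ) : K)).toFinset ∪
      (finite_not_mem ((y * M2 : Kˣ) : K)).toFinset ∪
      (finite_not_mem ((x * y * M2 : Kˣ) : K)).toFinset, ?_, ?_, ?_, ?_, ?_⟩
    · intro v hv
      simp only [Finset.mem_union]
      exact Or.inl (Or.inl (Or.inl (Or.inl hv)))
    all_goals
      intro v hv
      simp only [Finset.mem_union, Set.Finite.mem_toFinset, Set.mem_ofPred_eq, not_or, not_not]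
        at hv
      tauto
  have e1 := H1 M ⟨mx * my * mxy * B, by rw [hM, hMn]; push_cast; ring⟩ t ht1
  have ex := Hx M ⟨m1 * my * mxy * B, by rw [hM, hMn]; push_cast; ring⟩ t htx
  have ey := Hy M ⟨m1 * mx * mxy * B, by rw [hM, hMn]; push_cast; ring⟩ t hty
  have exy := Hxy M ⟨m1 * mx * my * B, by rw [hM, hMn]; push_cast; ring⟩ t htxy
  -- the signatures
  set eps : ℤ := (-1) ^ Nat.card {φ : K →+* ℝ // φ (x : K) < 0 ∧ φ (y : K) < 0} with heps
  have hpm1 : eps = 1 ∨ eps = -1 := neg_one_pow_eq_or ℤ _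
  have heps2 : (eps : ℂ) * (eps : ℂ) = 1 := by
    rcases hpm1 with h | h <;> rw [h] <;> norm_num
  have hsg : ph ((x * y : Kˣ) : K) * ph ((1 : Kˣ) : K) =
      (eps : ℂ) * (ph ((x : Kˣ) : K) * ph ((y : Kˣ) : K)) := rr_ph x y
  have hglob : SP ((∏ v ∈ t, mu v ((x * y * M2 : Kˣ) : K)) * ∏ v ∈ t, mu v ((1 * M2 : Kˣ) : K))
      ((eps : ℂ) *
        ((∏ v ∈ t, mu v ((x * M2 : Kˣ) : K)) * ∏ v ∈ t, mu v ((y * M2 : Kˣ) : K))) := by
    have h3 := exy.mul e1
    have h4 := ex.mul ey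
    rw [hsg] at h3
    exact h3.trans ((SP.refl (eps : ℂ)).mul h4.symm)
  have hne : ((∏ v ∈ t, mu v ((x * M2 : Kˣ) : K)) * ∏ v ∈ t, mu v ((y * M2 : Kˣ) : K)) ≠ 0 :=
    mul_ne_zero (ex.ne_zero (ph_ne_zero _)) (ey.ne_zero (ph_ne_zero _))
  -- local comparison
  have hloc : ∀ v ∈ t, SP (mu v ((x * y * M2 : Kˣ) : K) * mu v ((1 * M2 : Kˣ) : K))
      (((if v ∈ S then (1 : ℤ) else hs v x y : ℤ) : ℂ) *
        (mu v ((x * M2 : Kˣ) : K) * mu v ((y * M2 : Kˣ) : K))) := by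
    intro v hv
    by_cases hvS : v ∈ S
    · have hv0 : v ∈ s0 := by
        rw [hs0]
        simp only [Finset.mem_union]
        exact Or.inl (Or.inl hvS)
      rw [if_pos hvS, Int.cast_one, one_mul, one_mul]
      have hdp := hMdeep v hv0
      have hL : LSq v x := hx v hvS
      have k1 : SP (mu v ((x * M2 : Kˣ) : K)) (mu v (M2 : K)) := by
        refine mu_lsq v (hd v) x M2 hL ?_
        rw [hordM2 v]
        rw [hbd] at hdp
        push_cast at hdp
        have a1 := le_abs_self (2 * ordK v (two' K))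
        have a2 := abs_nonneg (ordK v x)
        have a3 := abs_nonneg (ordK v y)
        have a4 := abs_nonneg (2 * ordK v (two' K))
        omega
      have k2 : SP (mu v ((x * (y * M2) : Kˣ) : K)) (mu v ((y * M2 : Kˣ) : K)) := by
        refine mu_lsq v (hd v) x (y * M2) hL ?_
        rw [QD.ordK_mul, hordM2 v]
        rw [hbd] at hdp
        push_cast at hdp
        have a1 := le_abs_self (2 * ordK v (two' K))
        have a2 := abs_nonneg (ordK v x)
        have a3 := le_abs_self (ordK v y)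
        have a5 := abs_nonneg (ordK v y)
        have a4 := abs_nonneg (2 * ordK v (two' K))
        omega
      rw [mul_assoc x y M2, mul_comm (mu v ((x * M2 : Kˣ) : K))]
      exact k2.mul k1.symm
    · rw [if_neg hvS, one_mul]
      have h2v : (2 : 𝓞 K) ∉ v.asIdeal := fun h => hvS (h2 v h)
      refine brk v h2v (hd v) x y M ?_
      by_cases hv0 : v ∈ s0
      · right
        have hdp := hMdeep v hv0
        rw [hbd] at hdp
        push_cast at hdp
        have a2 := abs_nonneg (ordK v x)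
        have a3 := abs_nonneg (ordK v y)
        have a4 := abs_nonneg (2 * ordK v (two' K))
        omega
      · left
        rw [hs0] at hv0
        simp only [Finset.mem_union, Set.Finite.mem_toFinset, Set.mem_ofPred_eq, not_or,
          not_not] at hv0
        exact ⟨hv0.1.2, hv0.2⟩
  have hprod := SP.prod t hloc
  rw [Finset.prod_mul_distrib, Finset.prod_mul_distrib, Finset.prod_mul_distrib] at hprod
  have hfin : SP (((eps * ∏ v ∈ t, (if v ∈ S then (1 : ℤ) else hs v x y) : ℤ) : ℂ) *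
      ((∏ v ∈ t, mu v ((x * M2 : Kˣ) : K)) * ∏ v ∈ t, mu v ((y * M2 : Kˣ) : K)))
      ((∏ v ∈ t, mu v ((x * M2 : Kˣ) : K)) * ∏ v ∈ t, mu v ((y * M2 : Kˣ) : K)) := by
    have h5 := (SP.refl (eps : ℂ)).mul (hprod.symm.trans hglob)
    rw [← mul_assoc (eps : ℂ) (eps : ℂ), heps2, one_mul, ← mul_assoc (eps : ℂ)] at h5
    rw [Int.cast_mul, Int.cast_prod]
    exact h5
  have hpm : (∏ v ∈ t, (if v ∈ S then (1 : ℤ) else hs v x y)) = 1 ∨
      (∏ v ∈ t, (if v ∈ S then (1 : ℤ) else hs v x y)) = -1 := by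
    refine Finset.prod_induction _ (fun z : ℤ => z = 1 ∨ z = -1) ?_ (Or.inl rfl) ?_
    · rintro a b (rfl | rfl) (rfl | rfl) <;> simp
    · intro v _
      split_ifs
      · exact Or.inl rfl
      · exact hs_sq' x y
  rw [BS_eq S t x y ?_]
  · have hpm2 : (eps * ∏ v ∈ t, (if v ∈ S then (1 : ℤ) else hs v x y)) = 1 ∨
        (eps * ∏ v ∈ t, (if v ∈ S then (1 : ℤ) else hs v x y)) = -1 := by
      rcases hpm with h | h <;> rcases hpm1 with h' | h' <;> rw [h, h'] <;> norm_num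
    have h6 := SP.int_eq hpm2 hne hfin
    rcases hpm with h | h <;> rcases hpm1 with h' | h' <;> rw [h, h'] at h6 <;>
      rw [h, h'] <;> norm_num at h6
  · intro v hvt _
    have hv0 : v ∉ s0 := fun h => hvt (hst h)
    rw [hs0] at hv0
    simp only [Finset.mem_union, Set.Finite.mem_toFinset, Set.mem_ofPred_eq, not_or,
      not_not] at hv0
    refine hs_ee x y ?_ ?_
    · rw [hv0.1.2]
      exact Even.zero
    · rw [hv0.2]
      exact Even.zero

end Pool.Agent.THG
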