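import Pool.Agent.QD.N2.SigConst
import Mathlib.LinearAlgebra.QuadraticForm.Signature

/-!
# THG/R-SigL: the signature of a rational form which is a real combination of squares

PLAN.  `sigPos_le_card`: by `exists_finrank_eq_sigPos_and_posDef` there is a subspace `W` of dimension `sigPos q` on which `q` is positive definite; `W` has an orthogonal basis `w_i` (`LinearMap.BilinForm.exists_orthogonal_basis` for the associated form), `q (w_i) > 0`.  If `sigPos q > #{j | 0 < c j}` there are real numbers `x_i`,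
not all zero, with `∑ x_i ℓ_j (w_i) = 0` for all `j` with `0 < c j` (more unknowns than equations: `exists_nontrivial_relation`-like lemma, or `LinearMap.exists_ne_zero_of_finrank_lt`-like).  The polar form is `2 ∑_j c_j ℓ_j(x) ℓ_j(y)` (from `q (x + y) - q x - q y`), it vanishes for `x = w_i`, `y = w_k`, `i ≠ k`, so
`∑_j c_j (∑_i x_i ℓ_j (w_i))^2 = ∑_i x_i^2 ∑_j c_j ℓ_j(w_i)^2 = ∑_i x_i^2 q(w_i) > 0`, but the left-hand side is `≤ 0`.
`sigNeg_le_card`: `sigNeg q = sigPos (-q)`, the numbers `- c j`.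
-/

namespace Pool.Agent.THG

open Pool.Agent.QD.N2 QuadraticForm

private theorem sig_basis {V : Type} [AddCommGroup V] [Module ℚ V] [FiniteDimensional ℚ V]
    (q : QuadraticForm ℚ V) :
    ∃ f : Fin (sigPos q) → V, (∀ i, 0 < q (f i)) ∧ ∀ i k, i ≠ k → q (f i + f k) = q (f i) + q (f k) := by
  classical
  have : Invertible (2 : ℚ) := invertibleOfNonzero two_ne_zero
  obtain ⟨W, hWr, hW⟩ := exists_finrank_eq_sigPos_and_posDef q
  obtain ⟨w, ⟨e⟩⟩ := QuadraticForm.equivalent_weightedSumSquares (q.restrict W)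
  let f : Fin (Module.finrank ℚ W) → W := fun i => e.toLinearEquiv.symm (Pi.single i 1)
  have hef : ∀ i, e (f i) = Pi.single i 1 := by
    intro i
    exact e.toLinearEquiv.apply_symm_apply _
  have h1 : ∀ i, (q.restrict W) (f i) = w i := by
    intro i
    rw [← e.map_app, hef, QuadraticMap.weightedSumSquares_apply,
      Finset.sum_eq_single i]
    · simp
    · intro j _ hj
      simp [hj]
    · intro h; exact absurd (Finset.mem_univ i) h
  have hw : ∀ i, 0 < w i := by
    intro i
    rw [← h1]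
    apply hW
    intro h
    have h2 := hef i
    rw [h, map_zero] at h2
    have h3 := congrFun h2 i
    simp at h3
  have h2 : ∀ i k, i ≠ k → (q.restrict W) (f i + f k) = w i + w k := by
    intro i k hik
    rw [← e.map_app, map_add, hef, hef, QuadraticMap.weightedSumSquares_apply,
      ← Finset.sum_subset (Finset.subset_univ {i, k}), Finset.sum_pair hik]
    · simp [hik, Ne.symm hik]
    · intro j _ hj
      simp only [Finset.mem_insert, Finset.mem_singleton, not_or] at hj
      simp [hj.1, hj.2]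
  refine ⟨fun i => (f (Fin.cast hWr.symm i) : V), fun i => ?_, fun i k hik => ?_⟩
  · have := h1 (Fin.cast hWr.symm i)
    rw [QuadraticMap.restrict_apply] at this
    show 0 < q ((f (Fin.cast hWr.symm i) : W) : V)
    rw [this]
    exact hw _
  · have hne : Fin.cast hWr.symm i ≠ Fin.cast hWr.symm k := fun h => hik (Fin.cast_injective _ h)
    have h3 := h2 _ _ hne
    have h4 := h1 (Fin.cast hWr.symm i)
    have h5 := h1 (Fin.cast hWr.symm k)
    rw [QuadraticMap.restrict_apply] at h3 h4 h5
    show q ((f (Fin.cast hWr.symm i) : W) + (f (Fin.cast hWr.symm k) : W) : V) = _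
    rw [h4, h5, ← h3, Submodule.coe_add]

theorem sigPos_le_card {V : Type} [AddCommGroup V] [Module ℚ V] [FiniteDimensional ℚ V]
    (q : QuadraticForm ℚ V) {J : Type} [Fintype J] (c : J → ℝ) (l : J → V →ₗ[ℚ] ℝ)
    (h : ∀ x : V, ((q x : ℚ) : ℝ) = ∑ j, c j * l j x ^ 2) :
    sigPos q ≤ Nat.card {j : J // 0 < c j} := by
  classical
  obtain ⟨f, hf, hfk⟩ := sig_basis q
  by_contra hlt
  push Not at hlt
  rw [Nat.card_eq_fintype_card] at hlt
  -- the linear map `x ↦ (∑ x_i ℓ_j (f_i))_j`
  let F : (Fin (sigPos q) → ℝ) →ₗ[ℝ] ({j : J // 0 < c j} → ℝ) :=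
    LinearMap.pi fun j => ∑ i, (l j.1 (f i)) • LinearMap.proj i
  have hF : ∀ x j, F x j = ∑ i, l j.1 (f i) * x i := by
    intro x j
    simp [F]
  have hker : LinearMap.ker F ≠ ⊥ := by
    apply LinearMap.ker_ne_bot_of_finrank_lt
    rw [Module.finrank_fintype_fun_eq_card, Module.finrank_fintype_fun_eq_card, Fintype.card_fin]
    exact hlt
  obtain ⟨x, hxk, hx0⟩ := (Submodule.ne_bot_iff _).1 hker
  have hx : ∀ j, 0 < c j → ∑ i, l j (f i) * x i = 0 := by
    intro j hj
    have h1 := congrFun (LinearMap.mem_ker.1 hxk) ⟨j, hj⟩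
    rw [hF] at h1
    exact h1
  -- the polar form
  have hpol : ∀ i k, i ≠ k → ∑ j, c j * (l j (f i) * l j (f k)) = 0 := by
    intro i k hik
    have h1 := h (f i + f k)
    rw [hfk i k hik] at h1
    push_cast at h1
    rw [h (f i), h (f k)] at h1
    have h2 : ∑ j, c j * l j (f i + f k) ^ 2
        = ∑ j, c j * l j (f i) ^ 2 + ∑ j, c j * l j (f k) ^ 2 + 2 * ∑ j, c j * (l j (f i) * l j (f k)) := by
      rw [Finset.mul_sum, ← Finset.sum_add_distrib, ← Finset.sum_add_distrib]
      refine Finset.sum_congr rfl fun j _ => ?_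
      rw [map_add]; ring
    linarith
  have hdiag : ∀ i, ∑ j, c j * (l j (f i) * l j (f i)) = ((q (f i) : ℚ) : ℝ) := by
    intro i
    rw [h (f i)]
    refine Finset.sum_congr rfl fun j _ => ?_
    ring
  have hexp : ∑ j, c j * (∑ i, l j (f i) * x i) ^ 2 = ∑ i, x i ^ 2 * ((q (f i) : ℚ) : ℝ) := by
    calc ∑ j, c j * (∑ i, l j (f i) * x i) ^ 2
        = ∑ j, ∑ i, ∑ k, x i * x k * (c j * (l j (f i) * l j (f k))) := by
          refine Finset.sum_congr rfl fun j _ => ?_
          rw [sq, Finset.sum_mul_sum, Finset.mul_sum]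
          refine Finset.sum_congr rfl fun i _ => ?_
          rw [Finset.mul_sum]
          refine Finset.sum_congr rfl fun k _ => ?_
          ring
      _ = ∑ i, ∑ k, x i * x k * ∑ j, c j * (l j (f i) * l j (f k)) := by
          rw [Finset.sum_comm]
          refine Finset.sum_congr rfl fun i _ => ?_
          rw [Finset.sum_comm]
          refine Finset.sum_congr rfl fun k _ => ?_
          rw [Finset.mul_sum]
      _ = ∑ i, x i ^ 2 * ((q (f i) : ℚ) : ℝ) := by
          refine Finset.sum_congr rfl fun i _ => ?_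
          rw [Finset.sum_eq_single i]
          · rw [hdiag]; ring
          · intro k _ hk
            rw [hpol i k (Ne.symm hk), mul_zero]
          · intro h; exact absurd (Finset.mem_univ i) h
  have hle : ∑ j, c j * (∑ i, l j (f i) * x i) ^ 2 ≤ 0 := by
    refine Finset.sum_nonpos fun j _ => ?_
    by_cases hj : 0 < c j
    · rw [hx j hj]; simp
    · exact mul_nonpos_of_nonpos_of_nonneg (not_lt.1 hj) (sq_nonneg _)
  have hpos : 0 < ∑ i, x i ^ 2 * ((q (f i) : ℚ) : ℝ) := by
    obtain ⟨i, hi⟩ := Function.ne_iff.1 hx0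
    refine Finset.sum_pos' (fun i _ => mul_nonneg (sq_nonneg _) ?_) ⟨i, Finset.mem_univ i, ?_⟩
    · exact_mod_cast (hf i).le
    · have h1 : (0 : ℝ) < ((q (f i) : ℚ) : ℝ) := by exact_mod_cast hf i
      have h2 : x i ≠ 0 := hi
      positivity
  linarith

theorem sigNeg_le_card {V : Type} [AddCommGroup V] [Module ℚ V] [FiniteDimensional ℚ V]
    (q : QuadraticForm ℚ V) {J : Type} [Fintype J] (c : J → ℝ) (l : J → V →ₗ[ℚ] ℝ)
    (h : ∀ x : V, ((q x : ℚ) : ℝ) = ∑ j, c j * l j x ^ 2) :
    sigNeg q ≤ Nat.card {j : J // c j < 0} := by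
  have h1 := sigPos_le_card (-q) (fun j => - c j) l (fun x => by
    rw [QuadraticMap.neg_apply]
    push_cast
    rw [h x, ← Finset.sum_neg_distrib]
    refine Finset.sum_congr rfl fun j _ => ?_
    ring)
  rw [sigPos_neg] at h1
  simpa only [Left.neg_pos_iff] using h1

end Pool.Agent.THG
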