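import Pool.Agent.THG.R.SigL
import Pool.Agent.THF.T2.GamN

/-!
# THG/R-SigT: the signature of the trace form of a number field

For `ω ≠ 0` the form `Tr (ω x²)` is the sum of `φ(ω) φ(x)²` over the real embeddings and of
`2 Re (α σ(x))² - 2 Im (α σ(x))²` over the complex places, `σ` an embedding of the place and
`α² = σ(ω)`.  `sigPos_le_card` and `sigNeg_le_card` give upper bounds for the two indices of inertia;
their sum is the degree, so both are equalities.
-/

namespace Pool.Agent.THG

open NumberField IsDedekindDomain Pool.Agent.HWR Pool.Agent.QD Pool.Agent.QD.N2 Pool.Agent.THF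

private theorem st_sum_sig {K : Type} [Field K] [NumberField K] {ω : K} (hω : ω ≠ 0) :
    sigPos (trf ω) + sigNeg (trf ω) = Module.finrank ℚ K := by
  have h := QuadraticForm.sigPos_add_sigNeg_add_radical (Q := trf ω)
  have hr : (trf ω).radical = ⊥ := by
    rw [eq_bot_iff]
    intro x hx
    rw [Submodule.mem_bot]
    refine trf_nondeg hω x fun y => ?_
    rw [QuadraticMap.mem_radical_iff'] at hx
    rw [QuadraticMap.polar, hx.2 y, hx.1]
    ring
  rw [hr, finrank_bot] at h
  omega

/-- trace as a sum over the infinite places -/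
private theorem st_trace {K : Type} [Field K] [NumberField K] (y : K) :
    ((Algebra.trace ℚ K y : ℚ) : ℝ) =
      ∑ w : InfinitePlace K, (w.mult : ℝ) * (w.embedding y).re := by
  classical
  have h2 : ((Algebra.trace ℚ K y : ℚ) : ℂ) = ∑ σ : K →ₐ[ℚ] ℂ, σ y := by
    have := trace_eq_sum_embeddings (K := ℚ) (L := K) ℂ (x := y)
    rwa [eq_ratCast] at this
  have h3 : ∑ σ : K →ₐ[ℚ] ℂ, σ y = ∑ σ : K →+* ℂ, σ y := by
    exact Fintype.sum_equiv (RingHom.equivRatAlgHom K ℂ).symm _ _ fun σ => rfl
  have h4 : ((Algebra.trace ℚ K y : ℚ) : ℝ) = ∑ σ : K →+* ℂ, (σ y).re := by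
    rw [h3] at h2
    have h5 := congrArg Complex.re h2
    rw [Complex.re_sum] at h5
    rw [← h5, Complex.ratCast_re]
  rw [h4, ← Finset.sum_fiberwise (s := Finset.univ) (g := fun σ : K →+* ℂ => InfinitePlace.mk σ)]
  refine Finset.sum_congr rfl fun w _ => ?_
  rw [Finset.sum_congr rfl (g := fun _ => (w.embedding y).re), Finset.sum_const,
    InfinitePlace.card_filter_mk_eq, nsmul_eq_mul]
  intro σ hσ
  have h6 : InfinitePlace.mk σ = w := (Finset.mem_filter.1 hσ).2
  have h7 : InfinitePlace.mk σ = InfinitePlace.mk w.embedding := by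
    rw [h6, InfinitePlace.mk_embedding]
  rcases InfinitePlace.mk_eq_iff.1 h7 with h8 | h8
  · rw [h8]
  · rw [← h8, ComplexEmbedding.conjugate_coe_eq, Complex.conj_re]

/-- the real places and the real embeddings -/
private theorem st_bij {K : Type} [Field K] [NumberField K] :
    ∃ e : (K →+* ℝ) → {w : InfinitePlace K // w.IsReal}, Function.Bijective e ∧
      ∀ ψ y, ((e ψ).1.embedding y).re = ψ y := by
  classical
  have hr : ∀ ψ : K →+* ℝ, ComplexEmbedding.IsReal (Complex.ofRealHom.comp ψ) := by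
    intro ψ
    rw [ComplexEmbedding.isReal_iff]
    ext a
    simp [ComplexEmbedding.conjugate_coe_eq]
  have he : ∀ ψ : K →+* ℝ, (InfinitePlace.mk (Complex.ofRealHom.comp ψ)).embedding =
      Complex.ofRealHom.comp ψ := fun ψ => InfinitePlace.embedding_mk_eq_of_isReal (hr ψ)
  refine ⟨fun ψ => ⟨InfinitePlace.mk (Complex.ofRealHom.comp ψ), ⟨_, hr ψ, rfl⟩⟩, ⟨?_, ?_⟩, ?_⟩
  · intro ψ ψ' h
    have h1 : InfinitePlace.mk (Complex.ofRealHom.comp ψ) =
        InfinitePlace.mk (Complex.ofRealHom.comp ψ') := congrArg Subtype.val h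
    have h2 : Complex.ofRealHom.comp ψ = Complex.ofRealHom.comp ψ' := by
      rw [← he ψ, ← he ψ', h1]
    ext a
    have h3 := RingHom.congr_fun h2 a
    exact Complex.ofReal_injective h3
  · rintro ⟨w, σ, hσ, hw⟩
    refine ⟨hσ.embedding, Subtype.ext ?_⟩
    show InfinitePlace.mk (Complex.ofRealHom.comp hσ.embedding) = w
    rw [← hw]
    congr 1
    ext a
    exact ComplexEmbedding.IsReal.coe_embedding_apply hσ a
  · intro ψ y
    show ((InfinitePlace.mk (Complex.ofRealHom.comp ψ)).embedding y).re = ψ y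
    rw [he ψ]
    exact Complex.ofReal_re _

/-- the real linear forms -/
private noncomputable def stL {K : Type} [Field K] [NumberField K] (al : InfinitePlace K → ℂ) :
    (K →+* ℝ) ⊕ ({w : InfinitePlace K // w.IsComplex} × Bool) → (K →ₗ[ℚ] ℝ)
  | .inl ψ => ψ.toAddMonoidHom.toRatLinearMap
  | .inr (w, true) => (Complex.reAddGroupHom.comp ((AddMonoidHom.mulLeft (al w.1)).comp
      w.1.embedding.toAddMonoidHom)).toRatLinearMap
  | .inr (w, false) => (Complex.imAddGroupHom.comp ((AddMonoidHom.mulLeft (al w.1)).comp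
      w.1.embedding.toAddMonoidHom)).toRatLinearMap

/-- the coefficients -/
private noncomputable def stC {K : Type} [Field K] [NumberField K] (ω : K) :
    (K →+* ℝ) ⊕ ({w : InfinitePlace K // w.IsComplex} × Bool) → ℝ
  | .inl ψ => ψ ω
  | .inr (_, true) => 2
  | .inr (_, false) => -2

private theorem st_fin {K : Type} [Field K] [NumberField K] : Finite (K →+* ℝ) := by
  obtain ⟨e, he, _⟩ := st_bij (K := K)
  exact Finite.of_injective e he.1

open Classical in
private theorem st_form {K : Type} [Field K] [NumberField K] (ω : K) [Fintype (K →+* ℝ)]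
    (al : InfinitePlace K → ℂ) (hal : ∀ w, al w ^ 2 = w.embedding ω) (a : K) :
    ((trf ω a : ℚ) : ℝ) =
      ∑ j : (K →+* ℝ) ⊕ ({w : InfinitePlace K // w.IsComplex} × Bool),
        stC ω j * stL al j a ^ 2 := by
  obtain ⟨e, he, he2⟩ := st_bij (K := K)
  rw [trf_apply, st_trace, Fintype.sum_sum_type, Fintype.sum_prod_type]
  rw [← Fintype.sum_subtype_add_sum_subtype (fun w : InfinitePlace K => w.IsReal)]
  congr 1
  · rw [← he.sum_comp]
    refine Finset.sum_congr rfl fun ψ _ => ?_
    rw [InfinitePlace.mult_isReal (e ψ), he2, map_mul, map_pow, Nat.cast_one, one_mul]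
    rfl
  · have h1 : ∀ w : InfinitePlace K, ¬ w.IsReal ↔ w.IsComplex := fun w =>
      InfinitePlace.not_isReal_iff_isComplex
    refine Fintype.sum_equiv (Equiv.subtypeEquivRight h1) _ _ fun w => ?_
    rw [Fintype.sum_bool]
    have h2 : ((Equiv.subtypeEquivRight h1) w).1 = w.1 := rfl
    have h3 : w.1.mult = 2 := InfinitePlace.mult_isComplex ⟨w.1, (h1 w.1).1 w.2⟩
    show (w.1.mult : ℝ) * (w.1.embedding (ω * a ^ 2)).re =
      2 * ((al w.1 * w.1.embedding a).re) ^ 2 + -2 * ((al w.1 * w.1.embedding a).im) ^ 2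
    rw [h3, map_mul, map_pow, ← hal w.1, ← mul_pow, sq (al w.1 * w.1.embedding a), Complex.mul_re]
    push_cast
    ring

private theorem st_main {K : Type} [Field K] [NumberField K] (x : Kˣ) :
    sigPos (trf (x : K)) =
      Nat.card {φ : K →+* ℝ // 0 < φ (x : K)} + InfinitePlace.nrComplexPlaces K ∧
    sigNeg (trf (x : K)) = negs x + InfinitePlace.nrComplexPlaces K ∧
    Nat.card {φ : K →+* ℝ // 0 < φ (x : K)} + negs x = InfinitePlace.nrRealPlaces K := by
  classical
  have hfin : Finite (K →+* ℝ) := st_fin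
  let _ : Fintype (K →+* ℝ) := Fintype.ofFinite (K →+* ℝ)
  have hc : InfinitePlace.nrComplexPlaces K = Nat.card {w : InfinitePlace K // w.IsComplex} := by
    rw [Nat.card_eq_fintype_card]
  have hex : ∀ w : InfinitePlace K, ∃ al : ℂ, al ^ 2 = w.embedding (x : K) := fun w =>
    IsAlgClosed.exists_pow_nat_eq _ two_pos
  choose al hal using hex
  have hp := sigPos_le_card (trf (x : K)) (stC (x : K)) (stL al) (fun a => st_form (x : K) al hal a)
  have hn := sigNeg_le_card (trf (x : K)) (stC (x : K)) (stL al) (fun a => st_form (x : K) al hal a)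
  have h1 : Nat.card {j // 0 < stC (x : K) j} =
      Nat.card {φ : K →+* ℝ // 0 < φ (x : K)} + InfinitePlace.nrComplexPlaces K := by
    rw [Nat.card_congr (Equiv.subtypeSum (p := fun j => 0 < stC (x : K) j)), Nat.card_sum]
    congr 1
    rw [hc]
    refine (Nat.card_congr (Equiv.ofBijective
      (fun w => ⟨(w, true), show (0 : ℝ) < 2 by norm_num⟩) ⟨?_, ?_⟩)).symm
    · intro w w' h
      exact (Prod.mk.inj (congrArg Subtype.val h)).1
    · rintro ⟨⟨w, b⟩, hb⟩
      cases b with
      | true => exact ⟨w, rfl⟩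
      | false =>
        exfalso
        have hb' : (0 : ℝ) < -2 := hb
        linarith
  have h2 : Nat.card {j // stC (x : K) j < 0} =
      negs x + InfinitePlace.nrComplexPlaces K := by
    rw [Nat.card_congr (Equiv.subtypeSum (p := fun j => stC (x : K) j < 0)), Nat.card_sum]
    congr 1
    rw [hc]
    refine (Nat.card_congr (Equiv.ofBijective
      (fun w => ⟨(w, false), show (-2 : ℝ) < 0 by norm_num⟩) ⟨?_, ?_⟩)).symm
    · intro w w' h
      exact (Prod.mk.inj (congrArg Subtype.val h)).1
    · rintro ⟨⟨w, b⟩, hb⟩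
      cases b with
      | false => exact ⟨w, rfl⟩
      | true =>
        exfalso
        have hb' : (2 : ℝ) < 0 := hb
        linarith
  have h3 : Nat.card {φ : K →+* ℝ // 0 < φ (x : K)} + negs x = InfinitePlace.nrRealPlaces K := by
    rw [Pool.Agent.QD.N4.card_real, negs, ← Nat.card_sum]
    have hne : ∀ φ : K →+* ℝ, φ (x : K) ≠ 0 := fun φ => (map_ne_zero φ).2 x.ne_zero
    refine Nat.card_congr (Equiv.ofBijective (Sum.elim Subtype.val Subtype.val) ⟨?_, ?_⟩)
    · rintro (⟨φ, h⟩ | ⟨φ, h⟩) (⟨φ', h'⟩ | ⟨φ', h'⟩) h4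
      · simp only [Sum.elim_inl] at h4
        subst h4
        rfl
      · simp only [Sum.elim_inl, Sum.elim_inr] at h4
        subst h4
        exact absurd h (not_lt.2 h'.le)
      · simp only [Sum.elim_inl, Sum.elim_inr] at h4
        subst h4
        exact absurd h (not_lt.2 h'.le)
      · simp only [Sum.elim_inr] at h4
        subst h4
        rfl
    · intro φ
      rcases lt_or_gt_of_ne (hne φ) with h | h
      · exact ⟨.inr ⟨φ, h⟩, rfl⟩
      · exact ⟨.inl ⟨φ, h⟩, rfl⟩
  have h4 := st_sum_sig (K := K) (ω := (x : K)) x.ne_zero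
  have h5 := InfinitePlace.card_add_two_mul_card_eq_rank K
  rw [h1] at hp
  rw [h2] at hn
  refine ⟨?_, ?_, h3⟩ <;> omega

theorem sigNeg_trf {K : Type} [Field K] [NumberField K] (x : Kˣ) :
    sigNeg (trf (x : K)) = negs x + InfinitePlace.nrComplexPlaces K :=
  (st_main x).2.1

theorem sigPos_trf {K : Type} [Field K] [NumberField K] (x : Kˣ) :
    sigPos (trf (x : K)) + negs x =
      InfinitePlace.nrRealPlaces K + InfinitePlace.nrComplexPlaces K := by
  obtain ⟨h1, _, h3⟩ := st_main x
  omega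

end Pool.Agent.THG
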